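import Pool.Agent.H71.Pinch.Upper
import Pool.Agent.H71.Pinch.Lower
import Pool.Agent.H71.Pinch.Conv

/-!
# The optimal pinching constant for positivity of the curvature operator

For `d ≥ 2` and `m = ⌊d / 2⌋` the optimal pointwise pinching constant is
`δ(d) = 2 (m - 1) / (2 m + 1)`; for instance `δ(4) = δ(5) = 2 / 5` and `δ(6) = δ(7) = 4 / 7`.

Upper bound. Write a 2-vector in normal form `w = ∑ λ_i e_i ∧ f_i` with at most `m` terms and
`e_i, f_i` orthonormal. If `k ≤ K ≤ K_max` for all sectional curvatures at the point, then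
`|R(x, y, z, w)| ≤ (2 / 3) (K_max - k)` for orthonormal `x, y, z, w` (Berger), and so
`R^*(w, w) ≥ (k - (2 / 3) (K_max - k) (m - 1)) |w|²`.

Lower bound. Let `J` be a skew map of `ℝ^d` which is a complex structure on `ℝ^{2 m}` and vanishes
on the complement. The algebraic curvature tensor `R₀` with
`R₀(x, y, y, x) = |x ∧ y|² - 3 b ⟨J x, y⟩²` has sectional curvatures in `[1 - 3 b, 1]`, and
`R₀^*(w, w) = m (1 - (2 m + 1) b)` for the Kähler form `w`. For `b = 1 / (2 m + 1)` this is `0`, and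
`1 - 3 b = 2 (m - 1) / (2 m + 1)`. The metric `⟨u, v⟩ - R₀(u, y, y, v) / 3` near the origin of
`ℝ^d` has the curvature tensor `R₀` at the origin; on a small ball it is pointwise `δ`-pinched, for
any given `δ < 1 - 3 b`, and at the origin its curvature operator is not positive.

The definitions of the statement are in `Pool.Agent.H71.Pinch.Stmt`.
-/

set_option autoImplicit false

open scoped Manifold ContDiff Topology
open Module Pool.Agent.H839R2.Geo Pool.Agent.H71.Pinch
open Pool.Agent.H71.PinchStmt (pinchingConstants optimalPinching)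

namespace Pool.Agent.Results.MP_c9e91a_gt.OptimalPinching

theorem mem_pinchingConstants {d : ℕ} (hd : 2 ≤ d) {δ : ℝ} (hδ0 : 0 < δ) (hδ1 : δ ≤ 1)
    (hδ : 2 * (((d / 2 : ℕ) : ℝ) - 1) < δ * (2 * (d / 2 : ℕ) + 1)) : δ ∈ pinchingConstants d := by
  refine ⟨hδ0, hδ1, ?_⟩
  intro M _ _ _ _ _ _ g hg x
  have hf : finrank ℝ (EuclideanSpace ℝ (Fin d)) = d := by simp
  have h1 : ContDiffAt ℝ 2 (coordMetric 𝓘(ℝ, EuclideanSpace ℝ (Fin d)) g x) (extChartAt _ x x) :=
    (Pool.Agent.H234R3.contDiffAt_coordMetric g x).of_le Pool.Agent.H234R3.two_le_infty'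
  have h2 : ∀ v, v ≠ 0 →
      0 < coordMetric 𝓘(ℝ, EuclideanSpace ℝ (Fin d)) g x (extChartAt _ x x) v v :=
    fun v hv => Pool.Agent.H234R3.coordMetric_pos g x (mem_extChartAt_target x) hv
  exact (positiveAt_iff h1 h2).2 (positive_of_pinched h1
    (Filter.Eventually.of_forall fun y a b => Pool.Agent.H234R3.coordMetric_symm g x y a b)
    h2 (m := d / 2) (by rw [hf]; omega) (by rw [hf]; exact hd) hδ0 hδ1 hδ
    ((pinchedAt_iff h1 h2 δ).1 (hg x)))

/-- **The optimal pinching constant.** For every `d ≥ 2`, with `m = ⌊d / 2⌋`, the set of all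
`δ ∈ (0, 1]` such that every pointwise `δ`-pinched Riemannian `d`-manifold has positive curvature
operator is nonempty and its infimum `δ(d)` is `2 (m - 1) / (2 m + 1)`. -/
theorem result (d : ℕ) (hd : 2 ≤ d) : (pinchingConstants d).Nonempty ∧
    optimalPinching d = 2 * (((d / 2 : ℕ) : ℝ) - 1) / (2 * ((d / 2 : ℕ) : ℝ) + 1) := by
  set m : ℕ := d / 2 with hm
  have hm1 : 1 ≤ m := by omega
  have hm1' : (1 : ℝ) ≤ m := by exact_mod_cast hm1
  have hden : (0 : ℝ) < 2 * m + 1 := by linarith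
  set D : ℝ := 2 * ((m : ℝ) - 1) / (2 * m + 1) with hD
  have hD0 : 0 ≤ D := div_nonneg (by linarith) hden.le
  have hD1 : D < 1 := by
    rw [hD, div_lt_one hden]
    linarith
  have hmem : ∀ δ, D < δ → δ ≤ 1 → δ ∈ pinchingConstants d := by
    intro δ h1 h2
    refine mem_pinchingConstants hd (hD0.trans_lt h1) h2 ?_
    rw [hD, div_lt_iff₀ hden] at h1
    exact h1
  have hne : (pinchingConstants d).Nonempty := ⟨1, hmem 1 hD1 le_rfl⟩
  refine ⟨hne, ?_⟩
  have hlow : ∀ δ ∈ pinchingConstants d, D ≤ δ := by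
    rintro δ ⟨h0, h1, h2⟩
    by_contra h
    push Not at h
    have hm2 : 2 ≤ m := by
      by_contra hcon
      have : m = 1 := by omega
      rw [hD, this] at h
      norm_num at h
      linarith
    have h3 : δ * (2 * m + 1) < 2 * ((m : ℝ) - 1) := by
      rw [hD, lt_div_iff₀ hden] at h
      exact h
    obtain ⟨M, i1, i2, i3, i4, i5, i6, g, hg1, x, hg2⟩ :=
      exists_example (d := d) hm2 (by omega) h0.le h3
    have k1 : ∀ x : M, ContDiffAt ℝ 2 (coordMetric 𝓘(ℝ, EuclideanSpace ℝ (Fin d)) g x)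
        (extChartAt _ x x) := fun x =>
      (Pool.Agent.H234R3.contDiffAt_coordMetric g x).of_le Pool.Agent.H234R3.two_le_infty'
    have k2 : ∀ (x : M) v, v ≠ 0 →
        0 < coordMetric 𝓘(ℝ, EuclideanSpace ℝ (Fin d)) g x (extChartAt _ x x) v v :=
      fun x v hv => Pool.Agent.H234R3.coordMetric_pos g x (mem_extChartAt_target x) hv
    exact hg2 ((positiveAt_iff (k1 x) (k2 x)).1
      (h2 M g (fun y => (pinchedAt_iff (k1 y) (k2 y) δ).2 (hg1 y)) x))
  apply le_antisymm
  · apply le_of_forall_gt_imp_ge_of_dense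
    intro c hc
    rcases le_or_gt c 1 with h1 | h1
    · exact csInf_le ⟨D, hlow⟩ (hmem c hc h1)
    · exact (csInf_le ⟨D, hlow⟩ (hmem 1 hD1 le_rfl)).trans h1.le
  · exact le_csInf hne hlow

end Pool.Agent.Results.MP_c9e91a_gt.OptimalPinching
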